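import Pool.Agent.H751.HSE.Mod

/-!
# The Hilbert-Smith conjecture at the critical exponent `(n - 1) / (n + 1)` along scales

Let `n ≥ 1`, let `X` be a metric space in which the points with a neighbourhood bi-Lipschitz
equivalent to an open subset of `ℝⁿ` form a dense connected set (for example an Alexandrov space of
dimension `n`, or a connected Riemannian manifold), let `G` be a locally compact group which acts
faithfully and continuously on `X`, and let `V` be a neighbourhood of `1`. Suppose that for every
compact set `C` of regular points one of the following conditions holds. The scales and the maps may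
depend on `C`, the rates of convergence are arbitrary and depend on `g ∈ V`.

* (energies of exponent `n + 1`) for every `c` there is a sequence of scales `s_j > 0` such that for
  all `g ∈ V` the numbers `s_j ∑ diam (g (B(a, c s_j) ∩ C))^(n + 1)`, the sum over any
  `s_j`-separated points of `C`, tend to zero;
* (the critical modulus) for every `c` there is a sequence of scales `0 < s_j ≤ 1` such that for all
  `g ∈ V` the quotients `d(g x, g y) / s_j^((n - 1) / (n + 1))` tend to zero, uniformly for `x, y` in
  `C` with `d(x, y) ≤ c s_j`;
* (approximation) for every `ε > 0` there is `L ≥ 1` such that every `g ∈ V` is on `C` at a distance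
  at most `ε / L^((n - 1) / 2)` from an `L`-Lipschitz map.

Then `G` is a Lie group.

The starting library has the case in which the energies of exponent `n + 1` are `O(r^(-1 + δ))` for
all small `r` (theorem `EnergyExponentNPlusOne`; Hölder exponents larger than `(n - 1) / (n + 1)`),
the first condition with the exponent `n` instead of `n + 1` and with a fixed sequence of scales
(`CriticalEnergyAlongScales`; Hölder exponent `(n - 1) / n` along the scales), and the approximation
condition with the error `o(L^(-(n - 1)))` (`FastLipschitzApproximation`).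

Proof (files in `Pool/Agent/H751/HSE/`). Baire's theorem makes the energies of the maps of a coset of
an open subgroup of the closure `K` of the powers of an element small at all scales of a
subsequence, and by dominated convergence the average `F` over `K` and the averages `Q` of
countably many invariant functions have small energies at one scale for each precision
(`Ave.lean`, no rate is used). So the images of almost all hyperplane sections of the ball under `(F, Q)`
are null sets of `ℝ^(n + 1)`. With this replacement for the power rates the argument of the starting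
library for the exponent `n + 1` (`K1H66/HS`: cyclic partitions of the fibres of `F`, whose
components are points, and the degree) applies (`Loc.lean`). `Cls.lean` and `Mod.lean` contain
the globalisation, with the machinery `Q155/HS` of the starting library, and the two other
conditions.
-/

set_option autoImplicit false

namespace Pool.Agent.Results.MP_afaf30_gt.CriticalScales

open Set Metric Filter Topology

/-- A bi-Lipschitz chart with values in Euclidean `n`-space. -/
def BiLip {X : Type} [MetricSpace X] (n : ℕ) (U : Set X) (ψ : X → EuclideanSpace ℝ (Fin n))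
    (L : ℝ) : Prop :=
  IsOpen U ∧ IsOpen (ψ '' U) ∧
    ∀ a ∈ U, ∀ b ∈ U, dist (ψ a) (ψ b) ≤ L * dist a b ∧ dist a b ≤ L * dist (ψ a) (ψ b)

/-- The points with a neighbourhood which is bi-Lipschitz equivalent to an open subset of Euclidean
`n`-space. -/
def Reg (n : ℕ) (X : Type) [MetricSpace X] : Set X :=
  {x | ∃ (U : Set X) (ψ : X → EuclideanSpace ℝ (Fin n)) (L : ℝ), x ∈ U ∧ BiLip n U ψ L}

/-- For every `c` there is a sequence of scales `s j > 0` such that for every `g ∈ V` the energies
`s j * ∑ diam (g (B(a, c * s j) ∩ C)) ^ (n + 1)`, the sum over any `s j`-separated points `a` of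
`C`, tend to zero for `j → ∞`. -/
def SmallEnergies (n : ℕ) {X : Type} [MetricSpace X] {G : Type} [Group G] [MulAction G X]
    (V : Set G) (C : Set X) : Prop :=
  ∀ c : ℕ, ∃ s : ℕ → ℝ, (∀ j, 0 < s j) ∧ ∀ g ∈ V, ∀ ε : ℝ, 0 < ε →
    ∀ᶠ j in atTop, ∀ A : Finset X, (∀ a ∈ A, a ∈ C) →
      (∀ a ∈ A, ∀ b ∈ A, a ≠ b → s j ≤ dist a b) →
      s j * ∑ a ∈ A, Metric.diam ((fun x : X => g • x) '' (closedBall a (c * s j) ∩ C)) ^ (n + 1)
        ≤ ε

/-- For every `c` there is a sequence of scales `0 < s j ≤ 1` such that for every `g ∈ V` the
quotients `d(g x, g y) ^ (n + 1) / s j ^ (n - 1)` tend to zero for `j → ∞`, uniformly for the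
points `x`, `y` of `C` with `d(x, y) ≤ c * s j`. -/
def CriticalModulus (n : ℕ) {X : Type} [MetricSpace X] {G : Type} [Group G] [MulAction G X]
    (V : Set G) (C : Set X) : Prop :=
  ∀ c : ℕ, ∃ s : ℕ → ℝ, (∀ j, 0 < s j ∧ s j ≤ 1) ∧ ∀ g ∈ V, ∀ ε : ℝ, 0 < ε →
    ∀ᶠ j in atTop, ∀ x ∈ C, ∀ y ∈ C, dist x y ≤ c * s j →
      dist (g • x) (g • y) ^ (n + 1) ≤ ε * s j ^ (n - 1)

/-- For every `ε > 0` there is `L ≥ 1` such that every `g ∈ V` is on `C` at a distance `δ` with
`δ ^ 2 * L ^ (n - 1) ≤ ε` from a map which is `L`-Lipschitz on `C`. -/
def LipschitzApproximation (n : ℕ) {X : Type} [MetricSpace X] {G : Type} [Group G] [MulAction G X]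
    (V : Set G) (C : Set X) : Prop :=
  ∀ ε : ℝ, 0 < ε → ∃ L : ℝ, 1 ≤ L ∧ ∀ g ∈ V, ∃ f : X → X,
    (∀ x ∈ C, ∀ y ∈ C, dist (f x) (f y) ≤ L * dist x y) ∧
    ∀ x ∈ C, dist (g • x) (f x) ^ 2 * L ^ (n - 1) ≤ ε

/-- The Hilbert-Smith conjecture for homeomorphisms whose energies of exponent `n + 1` tend to zero
along a sequence of scales, in particular at the Hölder exponent `(n - 1) / (n + 1)` along a sequence
of scales, or with approximations by Lipschitz maps at the corresponding rate. -/
theorem result :
    ∀ (n : ℕ), 1 ≤ n → ∀ (X : Type) [MetricSpace X],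
      Dense (Reg n X) → IsPreconnected (Reg n X) →
      ∀ (G : Type) [Group G] [TopologicalSpace G] [IsTopologicalGroup G] [LocallyCompactSpace G]
        [MulAction G X] [ContinuousSMul G X] [FaithfulSMul G X], ∀ V ∈ 𝓝 (1 : G),
        (∀ C ⊆ Reg n X, IsCompact C →
          SmallEnergies n V C ∨ CriticalModulus n V C ∨ LipschitzApproximation n V C) →
        ∃ (m : ℕ) (_ : ChartedSpace (EuclideanSpace ℝ (Fin m)) G),
          LieGroup (modelWithCornersSelf ℝ (EuclideanSpace ℝ (Fin m)))
            ((⊤ : ℕ∞) : WithTop ℕ∞) G := by
  intro n hn X _ hd hc G _ _ _ _ _ _ _ V hV h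
  exact Pool.Agent.H751.HSE.lie_crit (S := Pool.Agent.Y485.HS.Reg n X) hn
    Pool.Agent.Y485.HS.isOpen_Reg subset_rfl hd hc hV h

end Pool.Agent.Results.MP_afaf30_gt.CriticalScales
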