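import Pool.Agent.H751.HSO.Glb
import Pool.Graph.R_pool_sql_team_seeded_63374d34.N512.CC.Circ2
import Pool.Graph.R_pool_sql_team_seeded_63374d34.N512.CC.Deg
import Pool.Graph.R_pool_sql_team_seeded_63374d34.N512.CC.Miss
import Pool.Graph.R_pool_sql_team_seeded_63374d34.N512.CC.Cone
import Pool.Graph.R_pool_sql_team_seeded_63374d34.N512.CC.Comb

/-!
# The Hilbert-Smith conjecture for Hölder actions with large orbits

Let `n ≥ 1` and let `X` be a metric space in which the points with a neighbourhood bi-Lipschitz
equivalent to an open subset of `ℝⁿ` form a dense connected set (for example an Alexandrov space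
of dimension `n`, or a connected Riemannian manifold). Let a locally compact group `G` act
faithfully and continuously on `X`, and let `V` be a neighbourhood of `1`. Suppose that every `g` in
`G` whose powers have compact closure contained in `V` has a power `h = g^M`, `M ≠ 0`, such that for
each regular point `x` of infinite orbit, outside a countable union of closed totally disconnected
sets, there are exponents `α > 0` and `β` with

  `(n + 2) α + β > n`

such that `h` is `α`-Hölder at the point `x`, tested against the points of infinite orbit, and the
orbits of `x` under the powers of `h^i` have lower box dimension at least `β` for all `i ≥ 1` (that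
is, `ρ`-separated subsets with at least `c ρ^(-β)` points for all small `ρ`, with `c > 0`).
Then `G` is a Lie group. The power, the exceptional sets, the exponents `α` and `β` and all constants
depend on the element and on the point in an arbitrary way.

The pairs `α > n / (n + 2)`, `β = 0` are Maleshich's threshold (in the pointwise form of the theorem
`HolderOrbits` of the starting library). The theorem says that the Hölder exponent needed decreases
linearly with the dimension of the orbits: for orbits of lower box dimension `β` all exponents
`α > (n - β) / (n + 2)` are admissible, and if the infinite orbits have lower box dimension `n` then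
every positive exponent is. (For maps which are locally uniformly Hölder continuous the starting
library has the threshold `(n - 1) / (n + 1)`, theorem `EnergyExponentNPlusOne`; the number
`(n - β) / (n + 2)` is smaller than this for `β > 2 / (n + 1)`.)

Proof (files in `Pool/Agent/H751/HSO/` and the starting library). Let `g^(p^j) → 1` and let `K` be the
closure of the powers of `g`. If the maps of a coset `s K` are uniformly `α`-Hölder on an invariant
piece `Q`, then orbits with points at distance less than `ρ` are at distance at most `ε = C ρ^α` in the
invariant metric `sup d(s k x, s k y)`. The balls of radius `ρ / 2` about the points of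
`ρ`-separated sets of orbits of a family of orbits with mutual distances at least `ρ` are disjoint, so
that there are at most `C' ρ^(β - n) = C'' ε^(-(n - β) / α)` such orbits (`Cnt`, `Cls`). So the image
of `Q` under an invariant map `F` to `ℝⁿ` together with quotients of twisted invariant functions is
covered by so many sets of diameter `ε` and is a null set of `ℝⁿ × ℂ` if `(n - β) / α < n + 2`
(`NV`). Hence generic combinations of the twisted averages have no zeros on almost all fibres of the
average `F` (`Loc`), which contradicts the circle criterion of the starting library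
(`N512/CC`), unless the action is trivial. The reduction of the pointwise conditions to uniform ones
uses Baire's theorem on the closure of the set of the points of infinite orbit, first for the Hölder
condition and the pair `(α, β)`, on sets which are of the second category in each open piece
(`Ban`, `One`), then on a coset of the closed group, and finally for the orbits of a small
subgroup (`Glb`).
-/

set_option autoImplicit false

namespace Pool.Agent.Results.MP_afaf30_gt.LargeOrbits

open Set Metric Filter Topology

/-- The points in the domain of a bi-Lipschitz chart with values in Euclidean `n`-space. -/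
def Reg (n : ℕ) (X : Type) [MetricSpace X] : Set X :=
  {x | ∃ φ : OpenPartialHomeomorph X (EuclideanSpace ℝ (Fin n)),
    (∃ L : ℝ, ∀ a ∈ φ.source, ∀ b ∈ φ.source,
      dist (φ a) (φ b) ≤ L * dist a b ∧ dist a b ≤ L * dist (φ a) (φ b)) ∧ x ∈ φ.source}

/-- No positive power of `g` fixes `x`, that is, the orbit of `x` under the powers of `g` is
infinite. -/
def InfiniteOrbit {G X : Type} [Monoid G] [MulAction G X] (g : G) (x : X) : Prop :=
  ∀ m : ℕ, 0 < m → g ^ m • x ≠ x

/-- The element `g` is `α`-Hölder at the point `x`, tested against the points of infinite orbit:
`d(gy, gx) ≤ C d(y, x)^α` for the points `y` of infinite orbit with `d(y, x) < δ`. -/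
def HolderAt {G X : Type} [MetricSpace X] [Monoid G] [MulAction G X] (g : G) (α : ℝ) (x : X) :
    Prop :=
  ∃ C δ : ℝ, 0 < δ ∧
    ∀ y, InfiniteOrbit g y → dist y x < δ → dist (g • y) (g • x) ≤ C * dist y x ^ α

/-- The orbits of `x` under the powers of `g ^ i`, `i ≥ 1`, have lower box dimension at least `β`:
for all small `ρ` they contain `N` points with mutual distances at least `ρ`, where
`ρ ^ (-β) ≤ C N`. -/
def OrbitDimension {G X : Type} [MetricSpace X] [Monoid G] [MulAction G X] (g : G) (β : ℝ)
    (x : X) : Prop :=
  ∀ i : ℕ, 0 < i → ∃ C δ : ℝ, 0 < δ ∧ ∀ ρ : ℝ, 0 < ρ → ρ < δ → ∃ T : Finset ℕ,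
    (∀ a ∈ T, ∀ b ∈ T, a ≠ b → ρ ≤ dist (g ^ (i * a) • x) (g ^ (i * b) • x)) ∧
      ρ ^ (-β) ≤ C * T.card

/-- There are countably many closed totally disconnected sets such that at all regular points `x` of
infinite orbit outside these sets `g` is `α`-Hölder and has orbits of dimension at least `β`, for
some `α > 0` and `β` with `(n + 2) α + β > n`. -/
def LargeOrbits (n : ℕ) (X : Type) [MetricSpace X] {G : Type} [Group G] [MulAction G X]
    (g : G) : Prop :=
  ∃ T : ℕ → Set X, (∀ i, IsClosed (T i)) ∧ (∀ i, IsTotallyDisconnected (T i)) ∧
    ∀ x ∈ Reg n X, InfiniteOrbit g x → (∀ i, x ∉ T i) →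
      ∃ α β : ℝ, 0 < α ∧ (n : ℝ) < (n + 2) * α + β ∧ HolderAt g α x ∧ OrbitDimension g β x

/-- The powers of `g` have compact closure contained in `V`. -/
def SmallPowers {G : Type} [Group G] [TopologicalSpace G] (V : Set G) (g : G) : Prop :=
  IsCompact (closure (Subgroup.zpowers g : Set G)) ∧ closure (Subgroup.zpowers g : Set G) ⊆ V

/-- The Hilbert-Smith conjecture for actions all of whose small elements have a nonzero power
which is pointwise `α`-Hölder along the infinite orbits with orbits of lower box dimension at least
`β`, where `(n + 2) α + β > n`, off a countable union of closed totally disconnected sets. -/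
theorem result :
    ∀ (n : ℕ), 1 ≤ n → ∀ (X : Type) [MetricSpace X],
      Dense (Reg n X) → IsPreconnected (Reg n X) →
      ∀ (G : Type) [Group G] [TopologicalSpace G] [IsTopologicalGroup G] [LocallyCompactSpace G]
        [MulAction G X] [ContinuousSMul G X] [FaithfulSMul G X], ∀ V ∈ 𝓝 (1 : G),
        (∀ g : G, SmallPowers V g → ∃ M : ℤ, M ≠ 0 ∧ LargeOrbits n X (g ^ M)) →
        ∃ (m : ℕ) (_ : ChartedSpace (EuclideanSpace ℝ (Fin m)) G),
          LieGroup (modelWithCornersSelf ℝ (EuclideanSpace ℝ (Fin m)))
            ((⊤ : ℕ∞) : WithTop ℕ∞) G := by
  intro n hn X _ hd hc G _ _ _ _ _ _ _ V hV hreg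
  exact Pool.Agent.H751.HSO.lie_large (Pool.Agent.N512.CC.Circ.t_CIRC Pool.Agent.N512.CC.t_DEG
    Pool.Agent.N512.CC.Miss.t_MISS Pool.Agent.N512.CC.Cone.t_CONE Pool.Agent.N512.CC.Cone.t_GEN
    Pool.Agent.N512.CC.t_COMB) hn hd hc hV hreg

end Pool.Agent.Results.MP_afaf30_gt.LargeOrbits
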