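import Pool.Agent.H751.HSF.Main

/-!
# The Hilbert-Smith conjecture for actions which are regular along flags of coordinate planes

Let `X` be a Hausdorff space with a dense connected set `R` of points with locally Euclidean
neighbourhoods (for example the topologically regular points of an Alexandrov space). A locally
compact group `G` which acts faithfully and continuously on `X` is a Lie group if its `p`-adic
subgroups are regular along flags: for every `g` whose powers have a `p`-adic closure `P` and for
every point `x` of `R` there are a topological chart `φ` and a neighbourhood `V` of `1` such that
the maps of `V ∩ P` satisfy the following condition in the chart `φ` near `x`. For every `k`, on the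
planes `v 0 = u 0, …, v (k - 1) = u (k - 1), v k = r`, for a dense set of `r` and almost all `u`,

* the coordinates `j > k` are Lipschitz continuous (with a constant depending on the plane), or
* the coordinates `j > k` are Hölder continuous with an exponent `a` and the coordinate `k` with an
  exponent `b`, `(n - 1 - k) (1 - a) < b`, or
* the planes are covered by finitely many sets on which the coordinates `l ≥ k` vary by at most
  `t l`, and the sum of the products of the numbers `t l` can be made arbitrarily small.

So nothing is assumed about the first coordinate, and nothing in the first direction, if the other
coordinates are Lipschitz continuous along the hyperplanes `v 0 = r`. The planes need not be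
preserved. The third condition contains the triangular homeomorphisms, whose coordinate `k` only
depends on the coordinates up to `k`, and are continuous and otherwise arbitrary.

Proof. Let `g` be an element of `p`-power type, `P` the closure of its powers and `F` the average of
the maps in `P`. By the theorem `InvariantContinua` of the starting library every fibre of `F`
contains an invariant continuum `C`. The images of the planes under `F` are small, so that for
almost every `y` the coordinate `0` is constant on `C`; then it is equal to `y 0` on `C`, as `C` is
invariant and `F` is the average. So `C` is contained in the hyperplane `v 0 = y 0`, and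
Fubini's theorem shows, in the same way, that the coordinate `1` is constant on `C`, and so on.
So `C` is a fixed point. The local statements are joined by Newman's theorem (from the library
theorem `AlmostAffineActions`), which also excludes small elements of finite order, and the
Gleason-Yamabe theorem of the starting library reduces the general case to profinite groups.
-/

set_option autoImplicit false

open Set Filter Topology

namespace Pool.Agent.Results.MP_afaf30_gt.RegularityAlongFlags

open Pool.Agent.H751.HSF (PAdic RegularAlong)

/-- The Hilbert-Smith conjecture for actions which are regular along flags of coordinate planes. -/
theorem result :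
    ∀ (X : Type) [TopologicalSpace X] [T2Space X] (R : Set X), Dense R → IsPreconnected R →
      (∀ x ∈ R, ∃ (n : ℕ) (φ : OpenPartialHomeomorph X (EuclideanSpace ℝ (Fin n))),
        x ∈ φ.source) →
      ∀ (G : Type) [Group G] [TopologicalSpace G] [IsTopologicalGroup G] [LocallyCompactSpace G]
        [MulAction G X] [ContinuousSMul G X] [FaithfulSMul G X],
        (∀ (p : ℕ) (g : G), PAdic p g → ∀ x ∈ R,
          ∃ (n : ℕ) (φ : OpenPartialHomeomorph X (EuclideanSpace ℝ (Fin n))) (V : Set G),
            x ∈ φ.source ∧ V ∈ 𝓝 (1 : G) ∧
            RegularAlong φ (V ∩ closure (Subgroup.zpowers g : Set G)) (φ x)) →
        ∃ (m : ℕ) (_ : ChartedSpace (EuclideanSpace ℝ (Fin m)) G),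
          LieGroup (modelWithCornersSelf ℝ (EuclideanSpace ℝ (Fin m)))
            ((⊤ : ℕ∞) : WithTop ℕ∞) G := by
  intro X _ _ R hd hc hR G _ _ _ _ _ _ _ hreg
  exact Pool.Agent.H751.HSF.lie_padic R hd hc hR hreg

end Pool.Agent.Results.MP_afaf30_gt.RegularityAlongFlags
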